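import Pool.Agent.Helper89.OC.St2

/-!
# OC module GPP (project OC, MP_2b6189_al): the partner orbit
-/

set_option autoImplicit false

namespace Pool.Agent.Helper28.OC

open Matrix ComplexConjugate Pool.Agent.Helper94.YF Pool.Agent.Helper94.YG
open Pool.Agent.Helper89.OS Pool.Agent.Helper89.OC

/-- the stabiliser of `k` -/
private def Stab {I : Type} [Fintype I] [DecidableEq I] {p : ℕ} (X : PD I p 1) (k : I) :
    Subgroup (ZMod (p ^ 1))ˣ where
  carrier := {c | X.pi c k = k}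
  mul_mem' := by
    intro a b ha hb
    have ha' : X.pi a k = k := ha
    have hb' : X.pi b k = k := hb
    show X.pi (a * b) k = k
    rw [X.pi_mul, hb', ha']
  one_mem' := X.pi_one k
  inv_mem' := by
    intro a ha
    have ha' : X.pi a k = k := ha
    show X.pi a⁻¹ k = k
    have h := X.pi_mul a⁻¹ a k
    rw [inv_mul_cancel, X.pi_one, ha'] at h
    exact h.symm

private theorem card_units {p : ℕ} [NeZero p] (hp : p.Prime) :
    Fintype.card (ZMod (p ^ 1))ˣ = p - 1 := by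
  rw [ZMod.card_units_eq_totient, pow_one, Nat.totient_prime hp]

private theorem stab_index {I : Type} [Fintype I] [DecidableEq I] {p : ℕ} [NeZero p]
    (X : PD I p 1) (hO : OB X) (k : I) : (Stab X k).index = (Orb X k).card := by
  have h1 := hO.card k
  have h2 := (Stab X k).card_mul_index
  rw [Nat.card_eq_fintype_card (α := (ZMod (p ^ 1))ˣ), card_units X.prime] at h2
  have h3 : Nat.card (Stab X k) = (Finset.univ.filter fun c => X.pi c k = k).card := by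
    rw [← Fintype.card_coe, ← Nat.card_eq_fintype_card]
    apply Nat.card_congr
    refine Equiv.subtypeEquivRight ?_
    intro c
    rw [Finset.mem_filter]
    constructor
    · intro h
      exact ⟨Finset.mem_univ _, h⟩
    · intro h
      exact h.2
  rw [h3] at h2
  have h4 : 0 < (Finset.univ.filter fun c => X.pi c k = k).card := by
    apply Finset.card_pos.mpr
    exact ⟨1, by rw [Finset.mem_filter]; exact ⟨Finset.mem_univ _, X.pi_one k⟩⟩
  have h5 : (Finset.univ.filter fun c => X.pi c k = k).card * (Stab X k).index =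
      (Finset.univ.filter fun c => X.pi c k = k).card * (Orb X k).card := by
    rw [h2, ← h1, mul_comm]
  exact Nat.eq_of_mul_eq_mul_left h4 h5

/-- the summand of GPZ -/
private noncomputable def TT {I : Type} [Fintype I] [DecidableEq I] {p : ℕ} [NeZero p]
    (X : PD I p 1) (a l : I) : ℝ :=
  ((p : ℝ) - 1) * ∑ c, ‖X.s a (X.pi c l)‖ ^ 2 - ‖∑ c, X.s a (X.pi c l)‖ ^ 2

private theorem key {I : Type} [Fintype I] [DecidableEq I] {p : ℕ} [NeZero p]
    (hMXX : StMXX) (hPRV : StPRV) (hCMM : StCMM)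
    (X : PD I p 1) (hO : OB X) (hGA : GA X) (hn : ∀ i k, X.s i k * (X.t i * X.t k) =
      ∑ l, (X.N i (X.st k) l : ℂ) * (X.t l * X.y l)) (a l : I) (ha : X.t a = 1)
    (hl : X.t l = 1) :
    ∃ F Q2 S : ℤ,
      ((Nat.gcd (Orb X a).card (Orb X l).card : ℕ) : ℝ) ^ 2 * TT X a l =
        (p : ℝ) * ((p : ℝ) - 1) ^ 2 *
          ((((Nat.gcd (Orb X a).card (Orb X l).card : ℕ) : ℤ) * Q2 - F ^ 2 : ℤ) : ℝ) ∧
      (((Nat.gcd (Orb X a).card (Orb X l).card : ℕ) : ℤ) * Q2 - F ^ 2 = 0 ∨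
        2 ≤ ((Nat.gcd (Orb X a).card (Orb X l).card : ℕ) : ℤ) ∧
        ((Nat.gcd (Orb X a).card (Orb X l).card : ℕ) : ℤ) - 1 ≤
          ((Nat.gcd (Orb X a).card (Orb X l).card : ℕ) : ℤ) * Q2 - F ^ 2) ∧
      ((Nat.gcd (Orb X a).card (Orb X l).card : ℕ) : ℤ) * S = ((p : ℤ) - 1) * F ∧
      ∑ c, X.s a (X.pi c l) = -(S : ℂ) := by
  obtain ⟨m, hm1, hm2⟩ := hMXX I p X hGA hn a l ha hl
  have hfact : Fact (p ^ 1).Prime := ⟨by rw [pow_one]; exact X.prime⟩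
  obtain ⟨hP1, hP2⟩ := hPRV p X.prime m
  obtain ⟨F, Q2, hF, hQ, hV⟩ := hCMM (ZMod (p ^ 1))ˣ (Stab X a) (Stab X l) m
    (fun c hc x => hm2 c (Or.inl hc) x) (fun c hc x => hm2 c (Or.inr hc) x)
  rw [stab_index X hO a, stab_index X hO l] at hF hQ hV
  rw [card_units X.prime] at hF hQ
  have hp1 : 1 ≤ p := X.prime.one_lt.le
  rw [Nat.cast_sub hp1, Nat.cast_one] at hF hQ
  set r : ℕ := Nat.gcd (Orb X a).card (Orb X l).card with hr
  refine ⟨F, Q2, ∑ x, m x, ?_, hV, hF, ?_⟩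
  · have hT : TT X a l = (p : ℝ) * (((p : ℝ) - 1) * ∑ x, (m x : ℝ) ^ 2 -
        (∑ x, (m x : ℝ)) ^ 2) := by
      unfold TT
      have e1 : ∑ c, ‖X.s a (X.pi c l)‖ ^ 2 = ∑ c, ‖Fm p m c‖ ^ 2 :=
        Finset.sum_congr rfl (fun c _ => by rw [hm1 c])
      have e2 : ∑ c, X.s a (X.pi c l) = ∑ c, Fm p m c :=
        Finset.sum_congr rfl (fun c _ => by rw [hm1 c])
      have e3 : ‖-∑ x, (m x : ℂ)‖ ^ 2 = (∑ x, (m x : ℝ)) ^ 2 := by
        have : (∑ x, (m x : ℂ)) = ((∑ x, (m x : ℝ) : ℝ) : ℂ) := by push_cast; rfl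
        rw [norm_neg, this, Complex.norm_real, Real.norm_eq_abs, sq_abs]
      rw [e1, e2, hP1, hP2, e3]
      ring
    have hFR : (r : ℝ) * ∑ x, (m x : ℝ) = ((p : ℝ) - 1) * F := by exact_mod_cast hF
    have hQR : (r : ℝ) * ∑ x, (m x : ℝ) ^ 2 = ((p : ℝ) - 1) * Q2 := by exact_mod_cast hQ
    rw [hT]
    push_cast
    have : (r : ℝ) ^ 2 * ((p : ℝ) * (((p : ℝ) - 1) * ∑ x, (m x : ℝ) ^ 2 -
        (∑ x, (m x : ℝ)) ^ 2)) = (p : ℝ) * (((p : ℝ) - 1) * r * ((r : ℝ) * ∑ x, (m x : ℝ) ^ 2) -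
        ((r : ℝ) * ∑ x, (m x : ℝ)) ^ 2) := by ring
    rw [this, hFR, hQR]
    ring
  · have e2 : ∑ c, X.s a (X.pi c l) = ∑ c, Fm p m c :=
      Finset.sum_congr rfl (fun c _ => by rw [hm1 c])
    rw [e2, hP2]
    push_cast
    rfl

private theorem mem_Orb' {I : Type} [Fintype I] [DecidableEq I] {p : ℕ} (X : PD I p 1) (k j : I) :
    j ∈ Orb X k ↔ ∃ c, X.pi c k = j := by
  classical
  unfold Orb
  rw [Finset.mem_filter]
  exact ⟨fun h => h.2, fun h => ⟨Finset.mem_univ _, h⟩⟩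

private theorem TT_orb {I : Type} [Fintype I] [DecidableEq I] {p : ℕ} [NeZero p]
    (X : PD I p 1) (a k l : I) (h : l ∈ Orb X k) : TT X a l = TT X a k := by
  obtain ⟨c', rfl⟩ := (mem_Orb' X k l).mp h
  unfold TT
  have e1 : ∀ (M : Type) [AddCommMonoid M] (f : I → M),
      ∑ c, f (X.pi c (X.pi c' k)) = ∑ c, f (X.pi c k) := by
    intro M _ f
    have : ∀ c, f (X.pi c (X.pi c' k)) = (fun c => f (X.pi c k)) (c * c') := by
      intro c
      show _ = f (X.pi (c * c') k)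
      rw [X.pi_mul]
    rw [Finset.sum_congr rfl (fun c _ => this c)]
    exact Equiv.sum_comp (Equiv.mulRight c') (fun c => f (X.pi c k))
  rw [e1 ℝ (fun i => ‖X.s a i‖ ^ 2), e1 ℂ (fun i => X.s a i)]

private theorem orb_sub {I : Type} [Fintype I] [DecidableEq I] {p : ℕ} [NeZero p]
    (X : PD I p 1) (hO : OB X) (k : I) (hk : k ∈ Ks X) : Orb X k ⊆ Ks X := by
  intro l hl
  unfold Ks at hk ⊢
  rw [Finset.mem_filter] at hk ⊢
  obtain ⟨-, h1, h2, h3⟩ := hk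
  refine ⟨Finset.mem_univ _, ?_, hO.t k l hl h2, ?_⟩
  · rw [hO.y k l hl]; exact h1
  · intro h
    rw [h] at hl
    exact h3 (hO.o k hl)

private theorem arith {g r n V : ℕ} (hg : 2 ≤ g) (hrg : r ∣ g) (hrn : r ∣ n) (hn : 0 < n)
    (hr : 2 ≤ r) (hV : r - 1 ≤ V) (h : g * (n * V) = (g - 1) * r ^ 2) :
    r = g ∧ n = g ∧ V = g - 1 := by
  obtain ⟨q, rfl⟩ := hrn
  have hr0 : 0 < r := by omega
  have h1 : r * (g * (q * V)) = r * ((g - 1) * r) := by
    calc r * (g * (q * V)) = g * (r * q * V) := by ring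
      _ = (g - 1) * r ^ 2 := h
      _ = r * ((g - 1) * r) := by ring
  have h2 : g * (q * V) = (g - 1) * r := Nat.eq_of_mul_eq_mul_left hr0 h1
  have hcop : Nat.Coprime g (g - 1) := by
    have : Nat.Coprime (g - 1 + 1) (g - 1) := by simp
    rwa [Nat.sub_add_cancel (by omega : 1 ≤ g)] at this
  have h3 : g ∣ r := hcop.dvd_of_dvd_mul_left (Dvd.intro _ h2)
  have h4 : r = g := Nat.dvd_antisymm hrg h3
  subst h4
  have h5 : q * V = r - 1 := by
    apply Nat.eq_of_mul_eq_mul_left hr0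
    rw [h2, mul_comm]
  have hq : 0 < q := by
    rcases Nat.eq_zero_or_pos q with h | h
    · rw [h] at hn
      omega
    · exact h
  have h6 : q ≤ 1 := by
    by_contra hq2
    have : 2 * V ≤ q * V := Nat.mul_le_mul_right _ (by omega)
    omega
  have h7 : q = 1 := by omega
  subst h7
  refine ⟨rfl, by ring, by omega⟩

/-- the real form of the data of `key` on the whole of `Ks` -/
private theorem main1 {I : Type} [Fintype I] [DecidableEq I] {p : ℕ} [NeZero p]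
    (X : PD I p 1) (hO : OB X) (a : I) (g : ℕ) (hg : 2 ≤ g) (hag : (Orb X a).card = g)
    (R : I → ℕ) (hR : ∀ l, R l = Nat.gcd g (Orb X l).card)
    (hkey : ∀ l ∈ Ks X, ∃ V : ℕ, ((R l : ℕ) : ℝ) ^ 2 * TT X a l =
      (p : ℝ) * ((p : ℝ) - 1) ^ 2 * (V : ℝ) ∧ (V = 0 ∨ 2 ≤ R l ∧ R l - 1 ≤ V))
    (hsum : ∑ l ∈ Ks X, TT X a l = (p : ℝ) * ((p : ℝ) - 1) ^ 2 * (1 - 1 / (g : ℝ))) :
    ∃ w ∈ Ks X, (Orb X w).card = g ∧ R w = g ∧
      ((g : ℕ) : ℝ) ^ 2 * TT X a w = (p : ℝ) * ((p : ℝ) - 1) ^ 2 * ((g - 1 : ℕ) : ℝ) := by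
  classical
  have hp2 : 2 ≤ p := X.prime.two_le
  have hpR : (2 : ℝ) ≤ (p : ℝ) := by exact_mod_cast hp2
  have hK : (0 : ℝ) < (p : ℝ) * ((p : ℝ) - 1) ^ 2 := by
    have : (0 : ℝ) < (p : ℝ) - 1 := by linarith
    positivity
  have hgR : (2 : ℝ) ≤ (g : ℝ) := by exact_mod_cast hg
  have hRpos : ∀ l, 0 < R l := by
    intro l
    rw [hR l]
    exact Nat.gcd_pos_of_pos_left _ (by omega)
  -- v l
  have hnn : ∀ l ∈ Ks X, 0 ≤ TT X a l := by
    intro l hl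
    obtain ⟨V, h1, -⟩ := hkey l hl
    have h2 : (0 : ℝ) < ((R l : ℕ) : ℝ) ^ 2 := by
      have : (0 : ℝ) < ((R l : ℕ) : ℝ) := by exact_mod_cast hRpos l
      positivity
    have h3 : (0 : ℝ) ≤ ((R l : ℕ) : ℝ) ^ 2 * TT X a l := by
      rw [h1]; positivity
    exact nonneg_of_mul_nonneg_right h3 h2
  -- orbit contribution
  have horb : ∀ k ∈ Ks X, ∑ l ∈ Orb X k, TT X a l = ((Orb X k).card : ℝ) * TT X a k := by
    intro k hk
    rw [Finset.sum_congr rfl (fun l hl => TT_orb X a k l hl), Finset.sum_const, nsmul_eq_mul]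
  have hcpos : ∀ k, 0 < (Orb X k).card := fun k => Finset.card_pos.mpr ⟨k, hO.self k⟩
  have hhalf : ∀ k ∈ Ks X, TT X a k ≠ 0 →
      (p : ℝ) * ((p : ℝ) - 1) ^ 2 * (1 / 2) ≤ ((Orb X k).card : ℝ) * TT X a k := by
    intro k hk hne
    obtain ⟨V, h1, h2⟩ := hkey k hk
    have hR0 : (0 : ℝ) < ((R k : ℕ) : ℝ) := by exact_mod_cast hRpos k
    have hV0 : V ≠ 0 := by
      intro h
      rw [h, Nat.cast_zero, mul_zero] at h1
      rcases mul_eq_zero.mp h1 with h | h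
      · exact (pow_ne_zero 2 hR0.ne') h
      · exact hne h
    rcases h2 with h2 | ⟨h2, h3⟩
    · exact absurd h2 hV0
    have hRd : R k ∣ (Orb X k).card := by rw [hR k]; exact Nat.gcd_dvd_right _ _
    have hle : R k ≤ (Orb X k).card := Nat.le_of_dvd (hcpos k) hRd
    have hleR : ((R k : ℕ) : ℝ) ≤ ((Orb X k).card : ℝ) := by exact_mod_cast hle
    have h2R : (2 : ℝ) ≤ ((R k : ℕ) : ℝ) := by exact_mod_cast h2
    have h3R : ((R k : ℕ) : ℝ) - 1 ≤ (V : ℝ) := by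
      have : R k ≤ V + 1 := by omega
      have h' : ((R k : ℕ) : ℝ) ≤ (V : ℝ) + 1 := by exact_mod_cast this
      linarith
    -- multiply by R^2
    have h4 : ((R k : ℕ) : ℝ) ^ 2 * (((Orb X k).card : ℝ) * TT X a k) =
        (p : ℝ) * ((p : ℝ) - 1) ^ 2 * (((Orb X k).card : ℝ) * V) := by
      calc ((R k : ℕ) : ℝ) ^ 2 * (((Orb X k).card : ℝ) * TT X a k)
          = ((Orb X k).card : ℝ) * (((R k : ℕ) : ℝ) ^ 2 * TT X a k) := by ring
        _ = _ := by rw [h1]; ring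
    have h5 : ((R k : ℕ) : ℝ) ^ 2 * (1 / 2) ≤ ((Orb X k).card : ℝ) * V := by
      have e1 : ((R k : ℕ) : ℝ) * (((R k : ℕ) : ℝ) - 1) ≤ ((Orb X k).card : ℝ) * V :=
        mul_le_mul hleR h3R (by linarith) (by positivity)
      nlinarith
    have h6 : ((R k : ℕ) : ℝ) ^ 2 * ((p : ℝ) * ((p : ℝ) - 1) ^ 2 * (1 / 2)) ≤
        ((R k : ℕ) : ℝ) ^ 2 * (((Orb X k).card : ℝ) * TT X a k) := by
      rw [h4]
      calc ((R k : ℕ) : ℝ) ^ 2 * ((p : ℝ) * ((p : ℝ) - 1) ^ 2 * (1 / 2))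
          = (p : ℝ) * ((p : ℝ) - 1) ^ 2 * (((R k : ℕ) : ℝ) ^ 2 * (1 / 2)) := by ring
        _ ≤ _ := mul_le_mul_of_nonneg_left h5 hK.le
    exact le_of_mul_le_mul_left h6 (by positivity)
  -- existence of l0
  have hsub : ∀ k ∈ Ks X, Orb X k ⊆ Ks X := fun k hk => orb_sub X hO k hk
  have hg1 : 1 / (g : ℝ) ≤ 1 / 2 := one_div_le_one_div_of_le (by norm_num) hgR
  have hg2 : 0 < 1 / (g : ℝ) := by positivity
  have hex : ∃ l ∈ Ks X, TT X a l ≠ 0 := by
    apply Finset.exists_ne_zero_of_sum_ne_zero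
    rw [hsum]
    have : 0 < (p : ℝ) * ((p : ℝ) - 1) ^ 2 * (1 - 1 / (g : ℝ)) :=
      mul_pos hK (by linarith)
    exact this.ne'
  obtain ⟨w, hw, hwne⟩ := hex
  have hoth : ∀ l ∈ Ks X, l ∉ Orb X w → TT X a l = 0 := by
    intro l hl hlw
    by_contra hne
    have hdis : Disjoint (Orb X w) (Orb X l) := by
      rw [Finset.disjoint_left]
      intro j hj hj'
      have e1 := hO.eq w j hj
      have e2 := hO.eq l j hj'
      apply hlw
      rw [← e1, e2]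
      exact hO.self l
    have h1 : ∑ k ∈ Orb X w ∪ Orb X l, TT X a k ≤ ∑ k ∈ Ks X, TT X a k :=
      Finset.sum_le_sum_of_subset_of_nonneg (Finset.union_subset (hsub w hw) (hsub l hl))
        (fun k hk _ => hnn k hk)
    rw [Finset.sum_union hdis, horb w hw, horb l hl, hsum] at h1
    have h2 := hhalf w hw hwne
    have h3 := hhalf l hl hne
    have h4 : (p : ℝ) * ((p : ℝ) - 1) ^ 2 * 1 ≤
        (p : ℝ) * ((p : ℝ) - 1) ^ 2 * (1 - 1 / (g : ℝ)) := by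
      linarith
    have h5 := le_of_mul_le_mul_left h4 hK
    linarith
  have htot : ((Orb X w).card : ℝ) * TT X a w =
      (p : ℝ) * ((p : ℝ) - 1) ^ 2 * (1 - 1 / (g : ℝ)) := by
    rw [← hsum, ← horb w hw]
    apply Finset.sum_subset (hsub w hw)
    intro l hl hlw
    exact hoth l hl hlw
  obtain ⟨V, h1, h2⟩ := hkey w hw
  have hR0 : (0 : ℝ) < ((R w : ℕ) : ℝ) := by exact_mod_cast hRpos w
  have hV0 : V ≠ 0 := by
    intro h
    rw [h, Nat.cast_zero, mul_zero] at h1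
    rcases mul_eq_zero.mp h1 with h | h
    · exact (pow_ne_zero 2 hR0.ne') h
    · exact hwne h
  rcases h2 with h2 | ⟨h2, h3⟩
  · exact absurd h2 hV0
  have hRd : R w ∣ (Orb X w).card := by rw [hR w]; exact Nat.gcd_dvd_right _ _
  have hRg : R w ∣ g := by rw [hR w]; exact Nat.gcd_dvd_left _ _
  have heq : ((g : ℝ)) * (((Orb X w).card : ℝ) * V) = ((g : ℝ) - 1) * ((R w : ℕ) : ℝ) ^ 2 := by
    have e1 : (p : ℝ) * ((p : ℝ) - 1) ^ 2 * ((g : ℝ) * (((Orb X w).card : ℝ) * V)) =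
        (p : ℝ) * ((p : ℝ) - 1) ^ 2 * (((g : ℝ) - 1) * ((R w : ℕ) : ℝ) ^ 2) := by
      calc (p : ℝ) * ((p : ℝ) - 1) ^ 2 * ((g : ℝ) * (((Orb X w).card : ℝ) * V))
          = (g : ℝ) * ((Orb X w).card : ℝ) * ((p : ℝ) * ((p : ℝ) - 1) ^ 2 * V) := by ring
        _ = (g : ℝ) * ((R w : ℕ) : ℝ) ^ 2 * (((Orb X w).card : ℝ) * TT X a w) := by
            rw [← h1]; ring
        _ = _ := by
            rw [htot]
            have : (g : ℝ) ≠ 0 := by positivity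
            field_simp
    exact mul_left_cancel₀ hK.ne' e1
  have heqN : g * ((Orb X w).card * V) = (g - 1) * R w ^ 2 := by
    have : ((g - 1 : ℕ) : ℝ) = (g : ℝ) - 1 := by
      rw [Nat.cast_sub (by omega : 1 ≤ g), Nat.cast_one]
    have e : ((g * ((Orb X w).card * V) : ℕ) : ℝ) = (((g - 1) * R w ^ 2 : ℕ) : ℝ) := by
      push_cast [this]
      rw [heq]
    exact_mod_cast e
  obtain ⟨k1, k2, k3⟩ := arith hg hRg hRd (hcpos w) h2 h3 heqN
  refine ⟨w, hw, k2, k1, ?_⟩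
  rw [k1, k3] at h1
  exact h1

theorem hGPP : StGPP := by
  intro hGPZ hMXX hPRV hCMM hTS2 hORB hE4 hE2 I _ _ p _ X Q N a hG hGA hn
  have hO : OB X := hORB I p X
  have hMZ := Pool.Agent.Helper39.OS.hMZZ I p X
  have hgX2 : 2 ≤ gX X := hMZ.2.2.2.2.1
  have haK : a ∈ Ks X := hG.aK
  have hmemK : ∀ l, l ∈ Ks X → X.y l ≠ 0 ∧ X.t l = 1 ∧ l ≠ X.o := by
    intro l hl
    unfold Ks at hl
    rw [Finset.mem_filter] at hl
    exact hl.2
  obtain ⟨g, hgdef⟩ : ∃ g : ℕ, (Orb X a).card = g := ⟨_, rfl⟩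
  have hgg : (g : ℤ) = gX X := by rw [← hgdef]; exact hG.aO
  have hg2 : 2 ≤ g := by
    have : (2 : ℤ) ≤ (g : ℤ) := by rw [hgg]; exact hgX2
    exact_mod_cast this
  have hat : X.t a = 1 := (hmemK a haK).2.1
  have hp2 : 2 ≤ p := X.prime.two_le
  have hpR : (2 : ℝ) ≤ (p : ℝ) := by exact_mod_cast hp2
  have hK : (0 : ℝ) < (p : ℝ) * ((p : ℝ) - 1) ^ 2 := by
    have : (0 : ℝ) < (p : ℝ) - 1 := by linarith
    positivity
  have hsum : ∑ l ∈ Ks X, TT X a l = (p : ℝ) * ((p : ℝ) - 1) ^ 2 * (1 - 1 / (g : ℝ)) := by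
    have := hGPZ hE4 hE2 hORB I p X Q hG.blk a haK
    rw [hgdef] at this
    exact this
  obtain ⟨w, hw, hwc, hwr, hwT⟩ := main1 X hO a g hg2 hgdef
    (fun l => Nat.gcd g (Orb X l).card) (fun l => rfl)
    (by
      intro l hl
      obtain ⟨F, Q2, S, k1, k2, -, -⟩ := key hMXX hPRV hCMM X hO hGA hn a l hat (hmemK l hl).2.1
      rw [hgdef] at k1 k2
      have hrp : 0 < Nat.gcd g (Orb X l).card := Nat.gcd_pos_of_pos_left _ (by omega)
      have hnn : 0 ≤ ((Nat.gcd g (Orb X l).card : ℕ) : ℤ) * Q2 - F ^ 2 := by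
        rcases k2 with k2 | ⟨k2, k3⟩
        · rw [k2]
        · linarith
      obtain ⟨V, hV⟩ := Int.eq_ofNat_of_zero_le hnn
      refine ⟨V, ?_, ?_⟩
      · rw [hV] at k1
        rw [k1]
        norm_cast
      · rcases k2 with k2 | ⟨k2, k3⟩
        · left
          rw [hV] at k2
          exact_mod_cast k2
        · right
          rw [hV] at k3
          show 2 ≤ Nat.gcd g (Orb X l).card ∧ Nat.gcd g (Orb X l).card - 1 ≤ V
          omega)
    hsum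
  refine ⟨w, ?_, by rw [hwc]; exact hgg⟩
  unfold Kp
  rw [Finset.mem_filter]
  refine ⟨hw, ?_⟩
  intro hwa
  -- contradiction
  have hTa : TT X a w = TT X a a := TT_orb X a a w hwa
  obtain ⟨F, Q2, S, k1, -, k3, k4⟩ := key hMXX hPRV hCMM X hO hGA hn a a hat hat
  rw [hgdef, Nat.gcd_self] at k1 k3
  rw [hTa] at hwT
  have hV : (g : ℤ) * Q2 - F ^ 2 = (g : ℤ) - 1 := by
    have e1 : (p : ℝ) * ((p : ℝ) - 1) ^ 2 * (((g : ℤ) * Q2 - F ^ 2 : ℤ) : ℝ) =
        (p : ℝ) * ((p : ℝ) - 1) ^ 2 * ((g - 1 : ℕ) : ℝ) := by rw [← k1, ← hwT]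
    have e2 := mul_left_cancel₀ hK.ne' e1
    have e3 : ((g - 1 : ℕ) : ℝ) = (((g : ℤ) - 1 : ℤ) : ℝ) := by
      rw [Nat.cast_sub (by omega : 1 ≤ g)]
      push_cast
      ring
    rw [e3] at e2
    exact_mod_cast e2
  -- TS2
  have hT1 := (hTS2 hORB I p X Q hG.blk a haK).1 a
  have hsplit : ∑ l, X.s a l * ((gX X : ℂ) * (if l ∈ Orb X a then 1 else 0) +
      ((Orb X a).card : ℂ) * X.y a * (if l = X.o then 1 else 0)) =
      (gX X : ℂ) * ∑ l ∈ Orb X a, X.s a l + ((Orb X a).card : ℂ) * X.y a * X.s a X.o := by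
    have e1 : ∀ l, X.s a l * ((gX X : ℂ) * (if l ∈ Orb X a then 1 else 0) +
        ((Orb X a).card : ℂ) * X.y a * (if l = X.o then 1 else 0)) =
        (gX X : ℂ) * (if l ∈ Orb X a then X.s a l else 0) +
        (if l = X.o then ((Orb X a).card : ℂ) * X.y a * X.s a l else 0) := by
      intro l
      split_ifs <;> ring
    rw [Finset.sum_congr rfl (fun l _ => e1 l), Finset.sum_add_distrib, ← Finset.mul_sum,
      Finset.sum_ite_mem, Finset.univ_inter, Finset.sum_ite_eq' Finset.univ X.o,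
      if_pos (Finset.mem_univ _)]
  rw [hsplit, if_pos (hO.self a), if_neg (hmemK a haK).2.2, X.s_o] at hT1
  have hgC : ((Orb X a).card : ℂ) = (gX X : ℂ) := by
    have := hG.aO
    exact_mod_cast this
  have hgX0 : (gX X : ℂ) ≠ 0 := by
    have : gX X ≠ 0 := by omega
    exact_mod_cast this
  have hay : (X.y a : ℂ) * (X.y a : ℂ) = 1 := by
    have := hG.ay
    have h' : ((X.y a ^ 2 : ℤ) : ℂ) = 1 := by rw [this]; norm_num
    push_cast at h'
    rw [← h']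
    ring
  have hsO : ∑ l ∈ Orb X a, X.s a l = (p : ℂ) - 1 := by
    apply mul_left_cancel₀ hgX0
    rw [hgC] at hT1
    have : (gX X : ℂ) * ∑ l ∈ Orb X a, X.s a l + (gX X : ℂ) * ((X.y a : ℂ) * (X.y a : ℂ)) =
        (p : ℂ) * (gX X : ℂ) := by
      rw [mul_one, mul_zero, add_zero] at hT1
      rw [← hT1]
      ring
    rw [hay] at this
    linear_combination this
  have hsum2 := hO.sum a (fun i => X.s a i)
  rw [hsO, k4, hgdef] at hsum2
  have hS : -((g : ℤ) * S) = ((p : ℤ) - 1) * ((p : ℤ) - 1) := by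
    have : (g : ℂ) * -(S : ℂ) = ((p : ℂ) - 1) * ((p : ℂ) - 1) := hsum2
    have h' : ((-((g : ℤ) * S) : ℤ) : ℂ) = ((((p : ℤ) - 1) * ((p : ℤ) - 1) : ℤ) : ℂ) := by
      push_cast
      rw [← this]
      ring
    exact_mod_cast h'
  have hp1 : ((p : ℤ) - 1) ≠ 0 := by
    have : (2 : ℤ) ≤ (p : ℤ) := by exact_mod_cast hp2
    omega
  have hF : F = -((p : ℤ) - 1) := by
    apply mul_left_cancel₀ hp1
    rw [← k3]
    linear_combination -hS
  have hF2 : F = -((N : ℤ) * (g : ℤ)) := by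
    rw [hF, hG.pN, hgg]
  have hdiv : (g : ℤ) ∣ 1 := by
    have : (1 : ℤ) = (g : ℤ) - ((g : ℤ) * Q2 - F ^ 2) := by rw [hV]; ring
    rw [this, hF2]
    exact ⟨1 - Q2 + (N : ℤ) ^ 2 * g, by ring⟩
  have : (g : ℤ) ≤ 1 := Int.le_of_dvd one_pos hdiv
  have hg2' : (2 : ℤ) ≤ (g : ℤ) := by exact_mod_cast hg2
  omega

end Pool.Agent.Helper28.OC
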